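import Pool.Agent.UL7.Stmts
import Pool.Agent.Helper2_UL3.INV

/-!
Squad UL7 (MP_c7c9bf_co), row INC: affine invariance of lattice packings (adapted from the row INB
of UL5 by helper15).
-/

set_option autoImplicit false

open MeasureTheory Set Pool.Agent.UL3 Pool.Agent.UL4 Pool.Agent.UL5

namespace Pool.Agent.UL7.H89

theorem inc : IncStmt := by
  intro r K T c
  rintro ⟨v, h0, hdis, hle⟩
  let h : E3 ≃ₜ E3 := (Homeomorph.subRight c).trans T.toHomeomorph
  have hint : interior ((fun x => T (x - c)) '' K) = (fun x => T (x - c)) '' interior K :=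
    (h.image_interior K).symm
  have hsum : ∀ n : Fin 3 → ℤ, T (∑ i, (n i : ℝ) • T.symm (v i)) = ∑ i, (n i : ℝ) • v i := by
    intro n
    rw [map_sum]
    refine Finset.sum_congr rfl fun i _ => ?_
    rw [map_smul, ContinuousLinearEquiv.apply_symm_apply]
  have hd := Pool.Agent.UL3.H2.dt_symm T v
  set k := |LinearMap.det (T : E3 →ₗ[ℝ] E3)| with hk
  have hk0 : 0 ≤ k := abs_nonneg _
  have hkpos : 0 < k := by
    rcases hk0.lt_or_eq with h | h
    · exact h
    · rw [← h, zero_mul] at hd
      linarith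
  have hV : V ((fun x => T (x - c)) '' K) = k * V K := by
    have h1 : (fun x => T (x - c)) '' K = T '' ((fun x => x - c) '' K) := by
      rw [image_image]
    have h2 : (fun x : E3 => x - c) '' K = (fun x => x + c) ⁻¹' K := by
      ext y
      constructor
      · rintro ⟨x, hx, rfl⟩
        show x - c + c ∈ K
        rw [sub_add_cancel]
        exact hx
      · intro hy
        exact ⟨y + c, hy, add_sub_cancel_right y c⟩
    unfold V
    rw [h1, measureReal_def, measureReal_def, Measure.addHaar_image_continuousLinearEquiv,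
      ENNReal.toReal_mul, ENNReal.toReal_ofReal (abs_nonneg _), h2, measure_preimage_add_right]
  refine ⟨fun i => T.symm (v i), ?_, ?_, ?_⟩
  · rw [hd] at h0
    exact (mul_pos_iff_of_pos_left hkpos).1 h0
  · intro n hn
    rw [Set.disjoint_left]
    rintro _ hy ⟨x, hx, rfl⟩
    have h1 := hdis n hn
    rw [hint, Set.disjoint_left] at h1
    refine h1 ⟨_, hy, rfl⟩ ⟨_, ⟨x, hx, rfl⟩, ?_⟩
    show T (x - c) + (2 : ℝ) • ∑ i, (n i : ℝ) • v i =
      T (x + (2 : ℝ) • ∑ i, (n i : ℝ) • T.symm (v i) - c)
    rw [← hsum n, ← map_smul, ← map_add]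
    congr 1
    abel
  · rw [hV, hd] at hle
    have : k * (32 * Real.sqrt 3 / (9 * r ^ 2) * dt (fun i => T.symm (v i))) ≤ k * V K := by linarith
    exact le_of_mul_le_mul_left this hkpos

end Pool.Agent.UL7.H89
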